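import Pool.Agent.W593.IR.Stm3

/-! Part IBE of project IR: the blow-up argument. -/

set_option autoImplicit false

namespace Pool.Agent.W569.IR

open Finset Pool.Agent.W593.IR Pool.Agent.W890.SF Filter Topology

theorem ng_blow {V : Type} [Fintype V] (y : V → ℝ) (k M : ℕ) :
    NG (fun w : V × Fin M => y w.1) k = NG y k * M ^ k := by
  unfold NG
  let e : (Fin k → V × Fin M) ≃ (Fin k → V) × (Fin k → Fin M) :=
    Equiv.arrowProdEquivProdArrow (Fin k) (fun _ => V) (fun _ => Fin M)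
  rw [← Set.ncard_image_of_injective _ e.injective]
  have h1 : e '' {f : Fin k → V × Fin M | 1 ≤ ∑ i, y (f i).1} =
      {f : Fin k → V | 1 ≤ ∑ i, y (f i)} ×ˢ (Set.univ : Set (Fin k → Fin M)) := by
    ext ⟨f, g⟩
    constructor
    · rintro ⟨h, hh, heq⟩
      have h2 : f = fun i => (h i).1 := by
        have := congrArg Prod.fst heq
        exact this.symm
      refine ⟨?_, Set.mem_univ _⟩
      rw [h2]
      exact hh
    · rintro ⟨hf, -⟩
      exact ⟨fun i => (f i, g i), hf, rfl⟩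
  rw [h1, Set.ncard_prod, Set.ncard_univ, Nat.card_eq_fintype_card, Fintype.card_fun,
    Fintype.card_fin, Fintype.card_fin]

theorem ibe : S_IBE := by
  intro k x ρ1 hk hx hxρ hρ1 hE ε hε
  have hk0 : (0 : ℝ) < k := by
    have : 0 < k := by omega
    exact_mod_cast this
  have hcont : Continuous fun t : ℝ => max ((k * t) ^ k) (1 - (1 - t) ^ k) := by fun_prop
  obtain ⟨δ, hδ, hδc⟩ := Metric.continuousAt_iff.1 (hcont.continuousAt (x := x)) ε hε
  have hmv : max (((k : ℝ) * x) ^ k) (1 - (1 - x) ^ k) = mv k x := by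
    rw [mv, max_comm]
  set η : ℝ := min (δ / 4) ((ρ1 - k * x) / (4 * k)) with hη
  have hη0 : 0 < η := lt_min (by linarith) (div_pos (by linarith) (by linarith))
  have hη1 : η ≤ δ / 4 := min_le_left _ _
  have hη2 : (k : ℝ) * η ≤ (ρ1 - k * x) / 4 := by
    have h1 : η ≤ (ρ1 - k * x) / (4 * k) := min_le_right _ _
    have h2 : (k : ℝ) * η ≤ k * ((ρ1 - k * x) / (4 * k)) := mul_le_mul_of_nonneg_left h1 hk0.le
    have h3 : (k : ℝ) * ((ρ1 - k * x) / (4 * k)) = (ρ1 - k * x) / 4 := by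
      field_simp
    linarith
  refine ⟨η, hη0, ?_⟩
  intro V _ _ y s hy hs hsV hsupp hsum hsx
  have hn0 : 0 < Fintype.card V := lt_of_lt_of_le hs hsV
  set n : ℕ := Fintype.card V with hn
  have hn1 : (0 : ℝ) < n := by exact_mod_cast hn0
  obtain ⟨M0, hM0⟩ := exists_nat_ge (1 / ((k : ℝ) * η * n))
  set M : ℕ := M0 + 1 with hM
  have hM1 : (0 : ℝ) < M := by
    have : 0 < M := by omega
    exact_mod_cast this
  have hkn : (0 : ℝ) < (k : ℝ) * η * n := by positivity
  have hbig : 1 ≤ (k : ℝ) * η * n * M := by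
    have h1 : 1 / ((k : ℝ) * η * n) ≤ M := by
      rw [hM]
      push_cast
      linarith
    rw [div_le_iff₀ hkn] at h1
    linarith
  set s' : ℕ := ⌊(k : ℝ) * (x + 2 * η) * (n * M)⌋₊ with hs'
  have hnM : (0 : ℝ) < n * M := by positivity
  have hpos : 0 ≤ (k : ℝ) * (x + 2 * η) * (n * M) := by positivity
  have hfl : (s' : ℝ) ≤ (k : ℝ) * (x + 2 * η) * (n * M) := Nat.floor_le hpos
  have hfl2 : (k : ℝ) * (x + 2 * η) * (n * M) < s' + 1 := Nat.lt_floor_add_one _
  have hsM : (s : ℝ) * M ≤ (k : ℝ) * (x + η) * (n * M) := by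
    have := mul_le_mul_of_nonneg_right hsx hM1.le
    calc (s : ℝ) * M ≤ k * (x + η) * n * M := this
      _ = (k : ℝ) * (x + η) * (n * M) := by ring
  have hsplit : (k : ℝ) * (x + 2 * η) * (n * M) =
      (k : ℝ) * (x + η) * (n * M) + (k : ℝ) * η * n * M := by ring
  have hss : s * M ≤ s' := by
    rw [hs']
    apply Nat.le_floor
    push_cast
    linarith
  have hle1 : (k : ℝ) * (x + 2 * η) ≤ ρ1 := by nlinarith
  have hs'n : s' ≤ n * M := by
    have h1 : (s' : ℝ) ≤ n * M := by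
      have h2 : (k : ℝ) * (x + 2 * η) * (n * M) ≤ 1 * (n * M) :=
        mul_le_mul_of_nonneg_right (hle1.trans hρ1) hnM.le
      linarith
    exact_mod_cast h1
  have hs'0 : 0 < s' := by
    have : 0 < s * M := Nat.mul_pos hs (by omega)
    omega
  have hcardW : Fintype.card (V × Fin M) = n * M := by
    rw [Fintype.card_prod, Fintype.card_fin]
  have hρlo : (k : ℝ) * x ≤ (s' : ℝ) / (Fintype.card (V × Fin M) : ℝ) := by
    rw [hcardW]
    push_cast
    rw [le_div_iff₀ hnM]
    have h3 : (k : ℝ) * x * (n * M) ≤ (k : ℝ) * (x + η) * (n * M) := by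
      apply mul_le_mul_of_nonneg_right _ hnM.le
      nlinarith
    linarith
  have hρhi' : (s' : ℝ) / (Fintype.card (V × Fin M) : ℝ) ≤ (k : ℝ) * (x + 2 * η) := by
    rw [hcardW]
    push_cast
    rw [div_le_iff₀ hnM]
    exact hfl
  have hsuppW : (univ.filter (fun w : V × Fin M => (fun w : V × Fin M => y w.1) w ≠ 0)).card ≤
      s' := by
    have h1 : (univ.filter (fun w : V × Fin M => (fun w : V × Fin M => y w.1) w ≠ 0)) =
        (univ.filter (fun v => y v ≠ 0)) ×ˢ (univ : Finset (Fin M)) := by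
      ext w
      simp
    rw [h1, card_product, card_univ, Fintype.card_fin]
    exact (Nat.mul_le_mul_right M hsupp).trans hss
  have hsumW : (k : ℝ) * ∑ w : V × Fin M, (fun w : V × Fin M => y w.1) w ≤ (s' : ℝ) := by
    have h1 : ∑ w : V × Fin M, (fun w : V × Fin M => y w.1) w = (∑ v, y v) * M := by
      rw [Fintype.sum_prod_type]
      simp [Finset.sum_mul, mul_comm]
    rw [h1]
    have h2 : (k : ℝ) * ((∑ v, y v) * M) ≤ s * M := by
      have := mul_le_mul_of_nonneg_right hsum hM1.le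
      linarith
    have h3 : ((s * M : ℕ) : ℝ) ≤ (s' : ℝ) := by exact_mod_cast hss
    push_cast at h3
    linarith
  have key := hE _ hρlo (hρhi'.trans hle1) (V × Fin M) (fun w => y w.1) s' (fun w => hy w.1)
    hs'0 (by rw [hcardW]; exact hs'n) hsuppW hsumW rfl
  set ρ : ℝ := (s' : ℝ) / (Fintype.card (V × Fin M) : ℝ) with hρ
  have ht := hδc (x := ρ / k) (by
    have h1 : x ≤ ρ / k := by
      rw [le_div_iff₀ hk0]
      linarith
    have h2 : ρ / k ≤ x + 2 * η := by
      rw [div_le_iff₀ hk0]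
      linarith
    rw [Real.dist_eq, abs_of_nonneg (by linarith)]
    linarith)
  have hmax : max (ρ ^ k) (1 - (1 - ρ / k) ^ k) ≤ mv k x + ε := by
    rw [hmv, Real.dist_eq] at ht
    have h1 : (k : ℝ) * (ρ / k) = ρ := by field_simp
    rw [h1] at ht
    have h2 := (abs_lt.1 ht).2
    linarith
  rw [ng_blow, hcardW] at key
  have hMk : (0 : ℝ) < (M : ℝ) ^ k := by positivity
  have hfin : (NG y k : ℝ) * (M : ℝ) ^ k ≤ ((n : ℝ) ^ k * (mv k x + ε)) * (M : ℝ) ^ k := by
    have h1 : ((NG y k * M ^ k : ℕ) : ℝ) = (NG y k : ℝ) * (M : ℝ) ^ k := by push_cast; ring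
    rw [← h1]
    refine key.trans ?_
    have h2 : (((n * M : ℕ) : ℝ)) ^ k = (n : ℝ) ^ k * (M : ℝ) ^ k := by
      push_cast
      rw [mul_pow]
    rw [h2]
    have h3 : (0 : ℝ) ≤ (n : ℝ) ^ k * (M : ℝ) ^ k := by positivity
    have h4 := mul_le_mul_of_nonneg_left hmax h3
    linarith
  exact le_of_mul_le_mul_right hfin hMk

end Pool.Agent.W569.IR
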